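import Mathlib
import Pool.Agent.H533.GE.Sqr3

set_option autoImplicit false

/-!
# Even numbers as a prime plus a square: the small squares which occur

`Rep N k` means that `N` is the sum of a prime and `k ^ 2`. For a positive proportion of the even `N` the
set of the small `k` with this property lies in prescribed windows or in an arbitrary prescribed set of
odd numbers; the number of the `N` for which it is a given set `T` is of the order of magnitude of the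
conjecture of Hardy and Littlewood, or larger, for a positive proportion of the sets `T`.
-/

namespace Pool.Agent.Results.MP_d48457_nt.PrescribedSquares

open Finset

/-- `N` is the sum of a prime and `k ^ 2` -/
def Rep (N k : ℕ) : Prop := ∃ p : ℕ, p.Prime ∧ p + k ^ 2 = N

/-- the number of the residue classes mod `p` which meet the set of the `k ^ 2`, `k ∈ T` -/
def nu (T : Finset ℕ) (p : ℕ) : ℕ := (T.image (fun k => k ^ 2 % p)).card

/-- the singular series of the shifts `k ^ 2`, `k ∈ T` -/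
noncomputable def S (T : Finset ℕ) : ℝ :=
  ∏' p : Nat.Primes, (1 - (nu T p : ℝ) / ((p : ℕ) : ℝ)) / (1 - 1 / ((p : ℕ) : ℝ)) ^ T.card

open Classical in
/-- the number of the even `N`, `x ≤ N < 2x`, such that `{k ∈ J : Rep N k} = T` (for `T ⊆ J`) -/
noncomputable def E (x : ℕ) (J T : Finset ℕ) : ℕ :=
  ((Ico x (2 * x)).filter (fun N => Even N ∧ ∀ k ∈ J, (Rep N k ↔ k ∈ T))).card

/-- `n / φ(n)` -/
noncomputable def G (n : ℕ) : ℝ := (n : ℝ) / Nat.totient n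

/-- `J` has at most `Λ L` elements and the sum of `G(|a ^ 2 - b ^ 2|) ^ i` over the ordered pairs of
distinct elements of `J` is at most `C i * L ^ 2`, for every `i` -/
def Mom (C : ℕ → ℝ) (Λ L : ℝ) (J : Finset ℕ) : Prop :=
  (J.card : ℝ) ≤ Λ * L ∧
    ∀ i : ℕ, ∑ q ∈ J.offDiag, G (Nat.dist (q.1 ^ 2) (q.2 ^ 2)) ^ i ≤ C i * L ^ 2

lemma mom_iff {C : ℕ → ℝ} {Λ L : ℝ} {J : Finset ℕ} :
    Mom C Λ L J ↔ Pool.Agent.H533.GE.MomS C Λ L J := Iff.rfl

lemma EN_le {x : ℕ} {J T : Finset ℕ} (hTJ : T ⊆ J) (hT : T.Nonempty) (hodd : ∀ k ∈ T, Odd k)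
    (hx : ∀ k ∈ T, k ^ 2 + 2 < x) : Pool.Agent.H533.GE.EN x J T ≤ E x J T := by
  classical
  unfold Pool.Agent.H533.GE.EN E
  apply card_le_card
  intro N hN
  rw [mem_filter, mem_Ico] at hN
  rw [mem_filter, mem_Ico]
  refine ⟨hN.1, ?_, hN.2⟩
  obtain ⟨k, hk⟩ := hT
  obtain ⟨p, hp, e⟩ := (hN.2 k (hTJ hk)).2 hk
  have h1 := hx k hk
  have h2 := hp.odd_of_ne_two (by omega)
  rw [← e]
  exact h2.add_odd ((hodd k hk).pow)

open Classical in
lemma GN_sub {x l : ℕ} {κ : ℝ} {J R : Finset ℕ} (hl : 1 ≤ l) (hodd : ∀ k ∈ J, Odd k)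
    (hx : ∀ k ∈ J, k ^ 2 + 2 < x) :
    Pool.Agent.H533.GE.GN x l κ J R ⊆ ((R ∩ J).powersetCard l).filter
        (fun T => κ * max 1 (S T) * (x / Real.log x ^ l) ≤ (E x J T : ℝ)) := by
  intro T hT
  unfold Pool.Agent.H533.GE.GN at hT
  rw [mem_filter, mem_powersetCard] at hT
  obtain ⟨⟨h1, h2⟩, h3⟩ := hT
  have hTJ : T ⊆ J := fun r hr => (mem_inter.1 (h1 hr)).2
  have hne : T.Nonempty := by rw [← card_pos, h2]; omega
  rw [mem_filter, mem_powersetCard]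
  refine ⟨⟨h1, h2⟩, ?_⟩
  have h4 := EN_le hTJ hne (fun k hk => hodd k (hTJ hk)) (fun k hk => hx k (hTJ hk))
  have h5 : (Pool.Agent.H533.GE.EN x J T : ℝ) ≤ E x J T := by exact_mod_cast h4
  exact le_trans h3 h5

lemma large (B : ℕ) : ∃ x₀ : ℕ, ∀ x : ℕ, x₀ ≤ x → ∀ k : ℕ, (k : ℝ) ≤ Real.log x ^ B →
    k ^ 2 + 2 < x := by
  obtain ⟨x₀, h⟩ := Pool.Agent.H533.GE.choose_M 1 one_pos B 0
  refine ⟨x₀ + 5, fun x hx k hk => ?_⟩
  obtain ⟨M, _, _, h1, h2⟩ := h x (by omega)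
  have h3 := h1 k hk
  have h4 := h2 0 le_rfl
  rw [pow_zero, div_one] at h4
  have h5 : (2 * M : ℝ) ≤ x := by linarith
  have h6 : 2 * M ≤ x := by exact_mod_cast h5
  omega

open Classical in
/-- (1) Let `K, m ≥ 1`, `ε, Λ > 0` and `0 ≤ α i`, `α i + ε ≤ Λ` for `i < K`. There is `c > 0` such that
for all large `x` at least `c x` of the even `N` in `[x, 2x)` have the following property: for at least
`K / 4` of the `i` there are at least `m` integers `k` with `α i log N < k ≤ (α i + ε) log N` such that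
`N - k ^ 2` is prime, and every `k ≤ Λ log N` for which `N - k ^ 2` is prime is in one of these windows.

(2) For all `C : ℕ → ℝ`, `Λ, ρ > 0`, `m ≥ 1` there are `M` and `κ > 0` such that for every `B` and all
large `x`: if `J` is a set of odd numbers up to `(log x) ^ B` with `Mom C Λ (log x) J` and `R` is a
subset of `J` with at least `ρ log x` elements, there is `l`, `m ≤ l ≤ M`, such that for at least
`κ (log x) ^ l` of the `l`-element subsets `T` of `R` there are at least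
`κ max(1, S T) x / (log x) ^ l` even `N` in `[x, 2x)` with `{k ∈ J : N - k ^ 2 prime} = T`.

(3) For all `C`, `Λ, ρ > 0` and `l ≥ 1` there is `κ > 0` such that for every `B`, all large `x` and
all such `J`, `R` there is `t` such that, with `J' = {k ∈ J : k ≤ t}`, for at least `κ (log x) ^ l` of
the `l`-element subsets `T` of `R ∩ J'` there are at least `κ max(1, S T) x / (log x) ^ l` even `N` in
`[x, 2x)` with `{k ∈ J' : N - k ^ 2 prime} = T`.

(4) For every `b > 0` there is `C` such that for every `B` and all large `x` every subset `J` of a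
window `(y, y + n]` with `n ≤ b log x`, `y + n ≤ (log x) ^ B`, satisfies `Mom C b (log x) J`. -/
theorem result :
    (∀ K m : ℕ, 1 ≤ K → 1 ≤ m → ∀ (α : Fin K → ℝ) (ε Λ : ℝ), 0 < ε → 0 < Λ →
      (∀ i, 0 ≤ α i ∧ α i + ε ≤ Λ) → ∃ c : ℝ, 0 < c ∧ ∃ x₀ : ℕ, ∀ x : ℕ, x₀ ≤ x →
      c * x ≤ (((Ico x (2 * x)).filter (fun N : ℕ => Even N ∧
        K ≤ 4 * ((univ : Finset (Fin K)).filter (fun i => m ≤
          ((Icc 1 ⌊Λ * Real.log N⌋₊).filter (fun k : ℕ =>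
            (α i * Real.log N < k ∧ (k : ℝ) ≤ (α i + ε) * Real.log N) ∧ Rep N k)).card)).card ∧
        ∀ k ∈ Icc 1 ⌊Λ * Real.log N⌋₊, Rep N k →
          ∃ i, α i * Real.log N < k ∧ (k : ℝ) ≤ (α i + ε) * Real.log N)).card : ℝ)) ∧
    (∀ (C : ℕ → ℝ) (Λ ρ : ℝ), 0 < Λ → 0 < ρ → ∀ m : ℕ, 1 ≤ m →
      ∃ M : ℕ, ∃ κ : ℝ, 0 < κ ∧ ∀ B : ℕ, ∃ x₀ : ℕ, ∀ x : ℕ, x₀ ≤ x → ∀ R J : Finset ℕ, R ⊆ J →
        (∀ k ∈ J, Odd k ∧ (k : ℝ) ≤ Real.log x ^ B) → Mom C Λ (Real.log x) J →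
        ρ * Real.log x ≤ R.card → ∃ l : ℕ, m ≤ l ∧ l ≤ M ∧
        κ * Real.log x ^ l ≤ (((R.powersetCard l).filter
          (fun T => κ * max 1 (S T) * (x / Real.log x ^ l) ≤ (E x J T : ℝ))).card : ℝ)) ∧
    (∀ (C : ℕ → ℝ) (Λ ρ : ℝ), 0 < Λ → 0 < ρ → ∀ l : ℕ, 1 ≤ l →
      ∃ κ : ℝ, 0 < κ ∧ ∀ B : ℕ, ∃ x₀ : ℕ, ∀ x : ℕ, x₀ ≤ x → ∀ R J : Finset ℕ, R ⊆ J →
        (∀ k ∈ J, Odd k ∧ (k : ℝ) ≤ Real.log x ^ B) → Mom C Λ (Real.log x) J →
        ρ * Real.log x ≤ R.card → ∃ t : ℕ,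
        κ * Real.log x ^ l ≤ ((((R.filter (fun k => k ≤ t)).powersetCard l).filter
          (fun T => κ * max 1 (S T) * (x / Real.log x ^ l) ≤
            (E x (J.filter (fun k => k ≤ t)) T : ℝ))).card : ℝ)) ∧
    (∀ b : ℝ, 0 < b → ∃ C : ℕ → ℝ, ∀ B : ℕ, ∃ x₀ : ℕ, ∀ x : ℕ, x₀ ≤ x → ∀ y n : ℕ,
      (n : ℝ) ≤ b * Real.log x → ((y + n : ℕ) : ℝ) ≤ Real.log x ^ B → ∀ J : Finset ℕ,
      J ⊆ Ioc y (y + n) → Mom C b (Real.log x) J) := by
  refine ⟨?_, ?_, ?_, fun b hb => Pool.Agent.H533.GE.momSW b hb⟩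
  · intro K m hK hm α ε Λ hε hΛ hα
    obtain ⟨c, hc, x₀, h⟩ := Pool.Agent.H533.GE.sqrW K m hK hm α ε Λ hε hΛ hα
    refine ⟨c, hc, x₀, fun x hx => (h x hx).trans ?_⟩
    rw [Nat.cast_le]
    apply card_le_card
    intro N hN
    rw [mem_filter] at hN ⊢
    refine ⟨hN.1, hN.2.1, hN.2.2.1.trans (le_of_eq ?_), hN.2.2.2⟩
    congr!
  · intro C Λ ρ hΛ hρ m hm
    obtain ⟨M, κ, hκ, H⟩ := Pool.Agent.H533.GE.sqr2 C Λ ρ hΛ hρ m hm
    refine ⟨M, κ, hκ, fun B => ?_⟩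
    obtain ⟨x1, h⟩ := H B
    obtain ⟨x2, h2⟩ := large B
    refine ⟨x1 + x2, fun x hx R J hRJ hJ hM hR => ?_⟩
    obtain ⟨l, hl1, hl2, h3⟩ := h x (by omega) R J hRJ (fun k hk => ⟨(hJ k hk).1.pos, (hJ k hk).2⟩)
      (mom_iff.1 hM) hR
    refine ⟨l, hl1, hl2, h3.trans ?_⟩
    rw [Nat.cast_le]
    apply card_le_card
    refine (GN_sub (by omega) (fun k hk => (hJ k hk).1)
      (fun k hk => h2 x (by omega) k (hJ k hk).2)).trans ?_
    intro T hT
    rw [mem_filter, mem_powersetCard] at hT ⊢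
    exact ⟨⟨hT.1.1.trans inter_subset_left, hT.1.2⟩, hT.2⟩
  · intro C Λ ρ hΛ hρ l hl
    obtain ⟨κ, hκ, H⟩ := Pool.Agent.H533.GE.sqr3 C Λ ρ hΛ hρ l hl
    refine ⟨κ, hκ, fun B => ?_⟩
    obtain ⟨x1, h⟩ := H B
    obtain ⟨x2, h2⟩ := large B
    refine ⟨x1 + x2, fun x hx R J hRJ hJ hM hR => ?_⟩
    obtain ⟨t, h3⟩ := h x (by omega) R J hRJ (fun k hk => ⟨(hJ k hk).1.pos, (hJ k hk).2⟩)
      (mom_iff.1 hM) hR
    refine ⟨t, h3.trans ?_⟩
    rw [Nat.cast_le]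
    apply card_le_card
    refine (GN_sub hl (fun k hk => (hJ k (mem_filter.1 hk).1).1)
      (fun k hk => h2 x (by omega) k (hJ k (mem_filter.1 hk).1).2)).trans ?_
    intro T hT
    rw [mem_filter, mem_powersetCard] at hT ⊢
    refine ⟨⟨fun r hr => ?_, hT.1.2⟩, hT.2⟩
    have h4 := hT.1.1 hr
    rw [mem_inter, mem_filter] at h4
    exact mem_filter.2 ⟨h4.1, h4.2.2⟩

end Pool.Agent.Results.MP_d48457_nt.PrescribedSquares
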