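import Pool.Agent.H559.BS.Fin

set_option autoImplicit false

/-!
# Every large integer is a random prime plus a square, with the Hardy-Littlewood count

For every prime `q` a residue class `a q` modulo `q` is drawn uniformly and independently, and the random primes are
the integers `k ≥ 3` in none of the classes `a q mod q` with `q ≤ z k` (the model of Banks, Ford and Tao, *Large prime
gaps and probabilistic models*). The sieving limit `z` is any nondecreasing function for which `∏_{q ≤ z k} (1 - 1 / q)`
is asymptotic to `1 / log k`; the choice `zBFT` of Banks, Ford and Tao is one of them.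

For `p` prime let `ν_p(n)` be the number of the `r mod p` with `r ^ 2 + a p = n mod p`. The Hardy-Littlewood prediction
for the number of the representations `n = k + m ^ 2` with `k` a random prime is `S(n) √n / log n`, where
`S(n) = ∏_p (1 - ν_p(n) / p) / (1 - 1 / p)`; it is the prediction for the primes when every `a p` is `0`.

The theorem: almost surely the product converges to a positive number for every `n`, the number of the representations is
asymptotic to `S(n) √n / log n` as `n` tends to infinity without any exception (in particular every large `n` is a random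
prime plus a square), and its exact minimal and maximal orders are `2 e^(-γ) C₂ √n / (log n log log n)` and
`(e^γ / 2) √n log log n / log n`, with `C₂` the twin prime constant; both are approached by even `n`.

As the event that `a q = 0` for all `q ≤ y` has positive probability for every `y`, the same holds almost surely in the
model that sieves the class `0` modulo every small prime, where the random primes are odd.
-/

open MeasureTheory ProbabilityTheory Filter Topology

namespace Pool.Agent.Results.MP_d48457_nt.RandomPrimePlusSquare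

/-- `V m = ∏ (1 - 1 / q)` over the primes `q ≤ m` -/
noncomputable def V (m : ℕ) : ℝ := ∏ q ∈ (Finset.range (m + 1)).filter Nat.Prime, (1 - 1 / (q : ℝ))

/-- the classes `a q` are independent, and `a q` is uniform on `0, …, q - 1` for every prime `q` -/
structure Model {Ω : Type} [MeasurableSpace Ω] (P : Measure Ω) (a : ℕ → Ω → ℕ) : Prop where
  measurable : ∀ q, Measurable (a q)
  independent : iIndepFun a P
  uniform : ∀ q, q.Prime → ∀ r < q, P.real {ω | a q ω = r} = 1 / q

/-- the sieving limit of Banks, Ford and Tao: the largest `m` with `∏_{q ≤ m} (1 - 1 / q)⁻¹ ≤ log n` -/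
noncomputable def zBFT (n : ℕ) : ℕ := sSup {m : ℕ | (V m)⁻¹ ≤ Real.log n}

/-- the admissible sieving limits: the density of the random primes near `k` is asymptotic to `1 / log k` -/
def Limit (z : ℕ → ℕ) : Prop := Monotone z ∧ Tendsto (fun k => V (z k) * Real.log k) atTop (𝓝 1)

/-- the set of the random primes of a sample -/
def R {Ω : Type} (z : ℕ → ℕ) (a : ℕ → Ω → ℕ) (ω : Ω) : Set ℕ :=
  {k | 3 ≤ k ∧ ∀ q ≤ z k, q.Prime → k % q ≠ a q ω}

/-- the number of the representations `n = k + m ^ 2` with `k` in `A` and `m ≥ 1` -/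
noncomputable def reps (A : Set ℕ) (n : ℕ) : ℕ := {m : ℕ | 1 ≤ m ∧ m ^ 2 ≤ n ∧ n - m ^ 2 ∈ A}.ncard

/-- the number of the `r mod p` with `r ^ 2 + a p = n mod p` -/
def nu {Ω : Type} (a : ℕ → Ω → ℕ) (ω : Ω) (n p : ℕ) : ℕ :=
  ((Finset.range p).filter fun r => (r ^ 2 + a p ω) % p = n % p).card

/-- the partial products of the singular product of `n` -/
noncomputable def singular {Ω : Type} (a : ℕ → Ω → ℕ) (ω : Ω) (n x : ℕ) : ℝ :=
  ∏ p ∈ (Finset.range (x + 1)).filter Nat.Prime, (1 - (nu a ω n p : ℝ) / p) / (1 - 1 / (p : ℝ))

/-- the partial products of the twin prime constant -/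
noncomputable def twin (x : ℕ) : ℝ :=
  ∏ p ∈ (Finset.range (x + 1)).filter (fun p => p.Prime ∧ p ≠ 2), (1 - 1 / ((p : ℝ) - 1) ^ 2)

theorem result :
    (∃ (Ω : Type) (_ : MeasurableSpace Ω) (P : Measure Ω) (a : ℕ → Ω → ℕ), Model P a) ∧ Limit zBFT ∧
    ∃ C₂ : ℝ, 0 < C₂ ∧ Tendsto twin atTop (𝓝 C₂) ∧
      ∀ z : ℕ → ℕ, Limit z → ∀ (Ω : Type) [MeasurableSpace Ω] (P : Measure Ω) (a : ℕ → Ω → ℕ), Model P a →
        ∀ᵐ ω ∂P, ∃ S : ℕ → ℝ,
          (∀ n, 0 < S n ∧ Tendsto (singular a ω n) atTop (𝓝 (S n))) ∧
          Tendsto (fun n : ℕ => (reps (R z a ω) n : ℝ) / (S n * (√n / Real.log n))) atTop (𝓝 1) ∧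
          ∀ ε : ℝ, 0 < ε →
            (∀ᶠ n : ℕ in atTop,
              (2 * Real.exp (-Real.eulerMascheroniConstant) * C₂ - ε) * (√n / (Real.log n * Real.log (Real.log n))) ≤
                reps (R z a ω) n ∧
              reps (R z a ω) n ≤
                (Real.exp Real.eulerMascheroniConstant / 2 + ε) * (√n * Real.log (Real.log n) / Real.log n)) ∧
            (∃ᶠ n : ℕ in atTop, Even n ∧ reps (R z a ω) n ≤
              (2 * Real.exp (-Real.eulerMascheroniConstant) * C₂ + ε) * (√n / (Real.log n * Real.log (Real.log n)))) ∧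
            ∃ᶠ n : ℕ in atTop, Even n ∧
              (Real.exp Real.eulerMascheroniConstant / 2 - ε) * (√n * Real.log (Real.log n) / Real.log n) ≤
                reps (R z a ω) n := by
  obtain ⟨C₂, hc0, hc⟩ := Pool.Agent.H559.BS.C2_lim
  refine ⟨?_, ⟨Pool.Agent.T2H32.BF.z0_mono, Pool.Agent.T2H32.BF.z0_lim⟩, C₂, hc0, hc, ?_⟩
  · obtain ⟨Ω, i, P, a, h⟩ := Pool.Agent.T2H32.BF.exists_model
    exact ⟨Ω, i, P, a, h.measurable, h.independent, h.uniform⟩
  · intro z hz Ω _ P a hmod
    have h : Pool.Agent.T2H32.BF.Model P a := ⟨hmod.measurable, hmod.independent, hmod.uniform⟩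
    have e : 1 / (2 * Pool.Agent.H559.BS.g) = Real.exp Real.eulerMascheroniConstant / 2 := by
      unfold Pool.Agent.H559.BS.g
      rw [Real.exp_neg]
      have := (Real.exp_pos Real.eulerMascheroniConstant).ne'
      field_simp
    have key := Pool.Agent.H559.BS.full h z hz C₂ hc0 hc
    rw [e] at key
    exact key

end Pool.Agent.Results.MP_d48457_nt.RandomPrimePlusSquare
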