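import Mathlib
import Pool.Agent.H544.VB.M6

/-!
# Primes plus values of polynomials: simultaneous representations `aᵢ = pᵢ + fᵢ(n)`, `n` in arbitrary sets, in short boxes

Let `f₁, …, f_k` be integer polynomials of degrees `dᵢ ≥ 2` with positive leading coefficients; the case of the problem is
`fᵢ = T ^ 2`. Let the vector `a = (a₁, …, a_k)` range over a box `∏ (bᵢ, bᵢ + Aᵢ]`, where the sides are as short as
`x ^ (dᵢ - 1) (log x) ^ C` (`x ^ (4/3) (log x) ^ C` for `dᵢ = 2`) while `bᵢ` has the order of `x ^ dᵢ`, up to powers of `log x`, and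
`fᵢ(n) + Aᵢ ≤ bᵢ` for all `n ≤ x`. So for one polynomial the numbers `a` lie in a short interval of length `b ^ (1 - 1/d)`
(`b ^ (2/3)` for `d = 2`), up to a power of the logarithm. For all but at most `∏ Aᵢ / (log x) ^ U` of the vectors `a`:

* for all `y ≤ x` the number of the `n ≤ y` with `aᵢ = pᵢ + fᵢ(n)`, `pᵢ` prime, simultaneously for all `i`, counted with the weight
  `∏ log pᵢ`, is `const * y` up to `x / (log x) ^ U`, with the constant of Hardy and Littlewood (cut at a power `z` of `log x`);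
* the same holds with arbitrary bounded weights `w n`, for example for the `n` in an ARBITRARY set: the expected value is the sum
  of the weights over the `n ≤ y` at which the `aᵢ - fᵢ(n)` have no prime factor `≤ z`, divided by `∏_{p ≤ z} (1 - 1/p) ^ k`.
-/

set_option autoImplicit false

namespace Pool.Agent.Results.MP_d48457_nt.SimultaneousInShortBoxes

open Finset Polynomial

variable {k : ℕ}

/-- the sum of `w n ∏ log (aᵢ - fᵢ(n))` over the `n ≤ y` at which all the `aᵢ - fᵢ(n)` are primes -/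
noncomputable def theta (f : Fin k → ℤ[X]) (a : Fin k → ℕ) (w : ℕ → ℝ) (y : ℕ) : ℝ :=
  ∑ n ∈ (Finset.Icc 1 y).filter (fun n : ℕ => ∀ i, ((a i : ℤ) - (f i).eval (n : ℤ)).toNat.Prime),
    w n * ∏ i, Real.log (((a i : ℤ) - (f i).eval (n : ℤ) : ℤ) : ℝ)

/-- the number of residues `n` modulo `p` at which `p` divides the product of the `aᵢ - fᵢ(n)` -/
def omega (f : Fin k → ℤ[X]) (a : Fin k → ℕ) (p : ℕ) : ℕ :=
  ((Finset.range p).filter (fun n : ℕ => (p : ℤ) ∣ ∏ i, ((a i : ℤ) - (f i).eval (n : ℤ)))).card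

/-- the constant of Bateman and Horn of the system of the polynomials `aᵢ - fᵢ`, cut at `z` -/
noncomputable def const (f : Fin k → ℤ[X]) (a : Fin k → ℕ) (z : ℕ) : ℝ :=
  ∏ p ∈ (Finset.Icc 1 z).filter Nat.Prime, (1 - (omega f a p : ℝ) / p) / (1 - 1 / (p : ℝ)) ^ k

/-- the sum of `w n` over the `n ≤ y` at which the `aᵢ - fᵢ(n)` are positive and have no prime factor `≤ z`, divided by
`∏_{p ≤ z} (1 - 1/p) ^ k` -/
noncomputable def model (f : Fin k → ℤ[X]) (a : Fin k → ℕ) (z : ℕ) (w : ℕ → ℝ) (y : ℕ) : ℝ :=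
  (∑ n ∈ (Finset.Icc 1 y).filter (fun n : ℕ => ∀ i, 1 ≤ (a i : ℤ) - (f i).eval (n : ℤ) ∧
      ∀ p ∈ (Finset.Icc 1 z).filter Nat.Prime, ¬ (p : ℤ) ∣ (a i : ℤ) - (f i).eval (n : ℤ)), w n) /
    ∏ p ∈ (Finset.Icc 1 z).filter Nat.Prime, (1 - 1 / (p : ℝ)) ^ k

lemma va_neg (f : Fin k → ℤ[X]) (a : Fin k → ℕ) (i : Fin k) (n : ℕ) :
    Pool.Agent.H544.LD.va (fun i => -f i) a i n = (a i : ℤ) - (f i).eval (n : ℤ) := by
  unfold Pool.Agent.H544.LD.va
  rw [eval_neg]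
  ring

lemma theta_eq (f : Fin k → ℤ[X]) (a : Fin k → ℕ) (w : ℕ → ℝ) (y : ℕ) :
    theta f a w y = ∑ n ∈ Icc 1 y, w n * ∏ i, Pool.Agent.H373R2.T7.lamP (Pool.Agent.H544.LD.va (fun i => -f i) a i n) := by
  unfold theta
  rw [sum_filter]
  apply sum_congr rfl
  intro n _
  have h1 : ∀ i, Pool.Agent.H373R2.T7.lamP (Pool.Agent.H544.LD.va (fun i => -f i) a i n) =
      if ((a i : ℤ) - (f i).eval (n : ℤ)).toNat.Prime then Real.log (((a i : ℤ) - (f i).eval (n : ℤ) : ℤ) : ℝ) else 0 := by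
    intro i
    rw [va_neg]
    unfold Pool.Agent.H373R2.T7.lamP
    split_ifs with h
    · have h2 : 0 ≤ (a i : ℤ) - (f i).eval (n : ℤ) := by
        have := h.pos
        omega
      congr 1
      have h3 : ((((a i : ℤ) - (f i).eval (n : ℤ)).toNat : ℤ) : ℝ) = (((a i : ℤ) - (f i).eval (n : ℤ) : ℤ) : ℝ) := by
        rw [Int.toNat_of_nonneg h2]
      rw [← h3]
      push_cast
      rfl
    · rfl
  split_ifs with h
  · congr 1
    apply prod_congr rfl
    intro i _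
    rw [h1, if_pos (h i)]
  · push Not at h
    obtain ⟨i, hi⟩ := h
    rw [prod_eq_zero (mem_univ i), mul_zero]
    rw [h1, if_neg hi]

lemma const_eq (f : Fin k → ℤ[X]) (a : Fin k → ℕ) (z : ℕ) : const f a z = Pool.Agent.H544.LD.Cz (fun i => -f i) a z := by
  unfold const Pool.Agent.H544.LD.Cz Pool.Agent.H373R2.T7.pz
  apply prod_congr rfl
  intro p _
  congr 4
  unfold omega Pool.Agent.H544.LD.om
  congr 1
  apply filter_congr
  intro n _
  rw [Pool.Agent.H544.LD.Hp_eval]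
  simp only [eval_neg, sub_eq_add_neg]

lemma model_eq (f : Fin k → ℤ[X]) (a : Fin k → ℕ) (z : ℕ) (w : ℕ → ℝ) (y : ℕ) :
    model f a z w y = ∑ n ∈ Icc 1 y, w n * ∏ i, Pool.Agent.H373R2.T7.lamzI z (Pool.Agent.H544.LD.va (fun i => -f i) a i n) := by
  unfold model
  rw [sum_filter, sum_div]
  apply sum_congr rfl
  intro n _
  have h1 : ∀ i, Pool.Agent.H373R2.T7.lamzI z (Pool.Agent.H544.LD.va (fun i => -f i) a i n) =
      if 1 ≤ (a i : ℤ) - (f i).eval (n : ℤ) ∧ ∀ p ∈ (Finset.Icc 1 z).filter Nat.Prime, ¬ (p : ℤ) ∣ (a i : ℤ) - (f i).eval (n : ℤ)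
      then (Pool.Agent.H373R2.T7.Vz z)⁻¹ else 0 := by
    intro i
    rw [va_neg]
    unfold Pool.Agent.H373R2.T7.lamzI Pool.Agent.H373R2.T7.lamz
    by_cases h : 1 ≤ (a i : ℤ) - (f i).eval (n : ℤ)
    · rw [if_pos h]
      have h2 : (∀ p ∈ Pool.Agent.H373R2.T7.pz z, ¬ p ∣ ((a i : ℤ) - (f i).eval (n : ℤ)).toNat) ↔
          (1 ≤ (a i : ℤ) - (f i).eval (n : ℤ) ∧ ∀ p ∈ (Finset.Icc 1 z).filter Nat.Prime, ¬ (p : ℤ) ∣ (a i : ℤ) - (f i).eval (n : ℤ)) := by
        rw [and_iff_right h]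
        unfold Pool.Agent.H373R2.T7.pz
        apply forall₂_congr
        intro p _
        rw [← Int.natCast_dvd_natCast, Int.toNat_of_nonneg (by omega)]
      by_cases h3 : ∀ p ∈ Pool.Agent.H373R2.T7.pz z, ¬ p ∣ ((a i : ℤ) - (f i).eval (n : ℤ)).toNat
      · rw [if_pos h3, if_pos (h2.1 h3)]
      · rw [if_neg h3, if_neg (fun h4 => h3 (h2.2 h4))]
    · rw [if_neg h, if_neg (fun h4 => h h4.1)]
  have hV : ∏ p ∈ (Finset.Icc 1 z).filter Nat.Prime, (1 - 1 / (p : ℝ)) ^ k = Pool.Agent.H373R2.T7.Vz z ^ k := by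
    unfold Pool.Agent.H373R2.T7.Vz Pool.Agent.H373R2.T7.pz
    rw [prod_pow]
  rw [hV]
  split_ifs with h
  · have e1 : ∏ i, Pool.Agent.H373R2.T7.lamzI z (Pool.Agent.H544.LD.va (fun i => -f i) a i n) = (Pool.Agent.H373R2.T7.Vz z)⁻¹ ^ k := by
      rw [prod_congr rfl (fun i _ => (h1 i).trans (if_pos (h i))), prod_const, card_univ, Fintype.card_fin]
    rw [e1, inv_pow]
    ring
  · push Not at h
    obtain ⟨i, hi⟩ := h
    have e1 : ∏ i, Pool.Agent.H373R2.T7.lamzI z (Pool.Agent.H544.LD.va (fun i => -f i) a i n) = 0 := by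
      apply prod_eq_zero (mem_univ i)
      rw [h1 i, if_neg]
      intro h5
      obtain ⟨p, hp, hpd⟩ := hi h5.1
      exact h5.2 p hp hpd
    rw [e1]
    ring

open Classical in
/-- Simultaneous representations `aᵢ = pᵢ + fᵢ(n)`, `n ≤ y`, counted with `∏ log pᵢ` and with arbitrary bounded weights `w n`, for
almost all vectors `a` in every box `∏ (bᵢ, bᵢ + Aᵢ]` with sides `Aᵢ ≥ x ^ (dᵢ - 1) (log x) ^ C` (`Aᵢ ≥ x ^ (4/3) (log x) ^ (C/3)` if
`dᵢ = 2`) and `fᵢ(n) + Aᵢ ≤ bᵢ`, `n ≤ x`. -/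
theorem result (f : Fin k → ℤ[X]) (hd : ∀ i, 2 ≤ (f i).natDegree) (hl : ∀ i, 0 < (f i).leadingCoeff) (U G : ℕ) :
    ∃ C E₀ : ℕ, ∀ E : ℕ, ∃ x₀ : ℕ, ∀ x : ℕ, x₀ ≤ x → ∀ b A : Fin k → ℕ,
      (∀ i, (x : ℝ) ^ ((f i).natDegree - 1) * Real.log x ^ C ≤ A i) →
      (∀ i, (f i).natDegree = 2 → (x : ℝ) ^ 4 * Real.log x ^ C ≤ (A i : ℝ) ^ 3) →
      (∀ i, (b i : ℝ) + A i ≤ (x : ℝ) ^ (f i).natDegree * Real.log x ^ G) →
      (∀ i, ∀ n : ℕ, 1 ≤ n → n ≤ x → (f i).eval (n : ℤ) + A i ≤ b i) →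
      ∀ w : ℕ → ℝ, (∀ n, |w n| ≤ 1) →
      ∀ z : ℕ, Real.log x ^ E₀ ≤ z → (z : ℝ) ≤ Real.log x ^ E →
      (((Fintype.piFinset fun i => Finset.Ioc (b i) (b i + A i)).filter (fun a : Fin k → ℕ => ¬ ∀ y : ℕ, y ≤ x →
          |theta f a (fun _ => 1) y - const f a z * y| ≤ x / Real.log x ^ U ∧
          |theta f a w y - model f a z w y| ≤ x / Real.log x ^ U)).card : ℝ) ≤
        (∏ i, (A i : ℝ)) / Real.log x ^ U := by
  obtain ⟨C, E₀, h0⟩ := Pool.Agent.H544.VB.kfinR f hd hl U G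
  refine ⟨C, E₀, fun E => ?_⟩
  obtain ⟨x₀, h1⟩ := h0 E
  refine ⟨x₀, fun x hx a₀ A hA1 hc hA2 hpos w hw z hz1 hz2 => ?_⟩
  obtain ⟨Bad, _, b2, b3⟩ := h1 x hx A a₀ hA1 hc (fun i => by have := hA2 i; linarith) hpos z hz1 hz2 w hw
  refine le_trans ?_ b2
  have hsub : (Fintype.piFinset fun i => Finset.Ioc (a₀ i) (a₀ i + A i)).filter (fun a : Fin k → ℕ => ¬ ∀ y : ℕ, y ≤ x →
      |theta f a (fun _ => 1) y - const f a z * y| ≤ x / Real.log x ^ U ∧
      |theta f a w y - model f a z w y| ≤ x / Real.log x ^ U) ⊆ Bad.image (fun a => a + a₀) := by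
    intro a ha
    rw [mem_filter, Fintype.mem_piFinset] at ha
    obtain ⟨ha1, ha3⟩ := ha
    rw [mem_image]
    have e1 : (a - a₀) + a₀ = a := by
      funext i
      have := (mem_Ioc.1 (ha1 i)).1
      rw [Pi.add_apply, Pi.sub_apply]
      omega
    refine ⟨a - a₀, ?_, e1⟩
    by_contra hab
    apply ha3
    intro y hy
    have h2 := b3 (a - a₀) (by
      unfold Pool.Agent.H544.LD.Bx
      rw [Fintype.mem_piFinset]
      intro i
      have := mem_Ioc.1 (ha1 i)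
      rw [mem_Icc, Pi.sub_apply]
      omega) hab y hy
    rw [e1] at h2
    rw [theta_eq, theta_eq, const_eq, model_eq]
    simp only [one_mul]
    exact h2
  have h3 : ((Fintype.piFinset fun i => Finset.Ioc (a₀ i) (a₀ i + A i)).filter (fun a : Fin k → ℕ => ¬ ∀ y : ℕ, y ≤ x →
      |theta f a (fun _ => 1) y - const f a z * y| ≤ x / Real.log x ^ U ∧
      |theta f a w y - model f a z w y| ≤ x / Real.log x ^ U)).card ≤ Bad.card :=
    (card_le_card hsub).trans card_image_le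
  exact_mod_cast h3

end Pool.Agent.Results.MP_d48457_nt.SimultaneousInShortBoxes
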